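import Pool.Agent.Run7.h763.Shell

/-! # Entire minimizing sets in a strict cone around a coordinate plane are graphs -/

open MeasureTheory Measure Metric Set Filter Topology

namespace Pool.Agent.Results.MP_928b88_gt.EntireGraph

/-- `S` is `m`-rectifiable: almost all of it is covered by countably many Lipschitz images of
subsets of `ℝ^m`. -/
def IsRectifiable (n m : ℕ) (S : Set (Fin n → ℝ)) : Prop :=
  ∃ (A : ℕ → Set (Fin m → ℝ)) (K : ℕ → NNReal) (f : ℕ → (Fin m → ℝ) → (Fin n → ℝ)),
    (∀ k, LipschitzOnWith (K k) (f k) (A k)) ∧ μH[(m : ℝ)] (S \ ⋃ k, f k '' A k) = 0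

/-- `S` is minimizing, as the problem defines it. -/
def IsMinimizing (n m : ℕ) (S : Set (Fin n → ℝ)) : Prop :=
  IsClosed S ∧ IsRectifiable n m S ∧
    ∀ (c : Fin n → ℝ) (r : ℝ), 0 < r → ∀ f : (Fin n → ℝ) → (Fin n → ℝ),
      (∃ K, LipschitzWith K f) → (∀ x, x ∉ closedBall c r → f x = x) →
      MapsTo f (closedBall c r) (closedBall c r) →
      μH[(m : ℝ)] (closedBall c r ∩ S) ≤ μH[(m : ℝ)] (f '' (closedBall c r ∩ S))

/-- The coordinate plane of `I`. -/
def coordPlane (n : ℕ) (I : Finset (Fin n)) : Submodule ℝ (Fin n → ℝ) where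
  carrier := {v | ∀ j, j ∉ I → v j = 0}
  add_mem' := by
    intro a b ha hb j hj
    rw [Pi.add_apply, ha j hj, hb j hj, add_zero]
  zero_mem' := fun j _ => rfl
  smul_mem' := by
    intro c a ha j hj
    rw [Pi.smul_apply, ha j hj, smul_zero]

/-- `G` is the graph of a `1`-Lipschitz map from the whole coordinate plane of `I` to the
complementary coordinate plane. -/
def IsEntireOneLipGraph (n : ℕ) (I : Finset (Fin n)) (G : Set (Fin n → ℝ)) : Prop :=
  ∃ g : (Fin n → ℝ) → (Fin n → ℝ), LipschitzOnWith 1 g (coordPlane n I) ∧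
    (∀ y ∈ coordPlane n I, g y ∈ coordPlane n Iᶜ) ∧
    G = (fun y => y + g y) '' (coordPlane n I : Set (Fin n → ℝ))

open Run7.h763 in
/-- Let `S` be minimizing with locally finite measure, let `S'` be the support of `H^m` on `S`
and suppose that `S'` is not empty and, outside a bounded neighbourhood, stays in a strict cone
around a coordinate `m`-plane. Then `S'` is the graph of a `1`-Lipschitz map over that whole
coordinate plane. -/
theorem result (n m : ℕ) (hm : 1 ≤ m) (S : Set (Fin n → ℝ)) (hS : IsMinimizing n m S)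
    (hfin : ∀ (c : Fin n → ℝ) (r : ℝ), μH[(m : ℝ)] (closedBall c r ∩ S) < ⊤)
    (hne : (μH[(m : ℝ)].restrict S).support.Nonempty)
    (I : Finset (Fin n)) (hI : I.card = m) (l C : ℝ) (hl : l < 1)
    (hcone : ∀ y ∈ (μH[(m : ℝ)].restrict S).support, ∀ j, j ∉ I →
      ∃ i ∈ I, |y j| ≤ l * |y i| + C) :
    IsEntireOneLipGraph n I (μH[(m : ℝ)].restrict S).support := by
  obtain ⟨hcl, _, hmin⟩ := hS
  obtain ⟨hG, hsub, hnull⟩ := good_support (m := m) hcl hfin hmin
  set S' := (μH[(m : ℝ)].restrict S).support with hS'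
  have hcone' : ∀ y ∈ S', ∀ j, j ∉ I → |y j| ≤ (max l 0) * ‖pr I y‖ + C := by
    intro y hy j hj
    obtain ⟨i, hi, hij⟩ := hcone y hy j hj
    refine hij.trans ?_
    have h1 : |y i| ≤ ‖pr I y‖ := by
      rw [← Real.norm_eq_abs]; exact norm_le_pi_norm (pr I y) ⟨i, hi⟩
    have h2 : l * |y i| ≤ max l 0 * |y i| := by
      apply mul_le_mul_of_nonneg_right (le_max_left _ _) (abs_nonneg _)
    have h3 : max l 0 * |y i| ≤ max l 0 * ‖pr I y‖ := by
      apply mul_le_mul_of_nonneg_left h1 (le_max_right _ _)
    linarith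
  obtain ⟨hsurj, hlip⟩ := entire hG hm hI hne (le_max_right l 0) (max_lt hl one_pos) hcone'
  choose φ hφS hφp using fun y : Fin n → ℝ => hsurj (pr I y)
  have hφp' : ∀ y : Fin n → ℝ, ∀ i ∈ I, φ y i = y i := by
    intro y i hi
    exact congrFun (hφp y) ⟨i, hi⟩
  refine ⟨fun y j => if j ∈ I then 0 else φ y j, ?_, ?_, ?_⟩
  · apply lipOn_pi
    intro j
    rw [lipschitzOnWith_iff_dist_le_mul]
    intro y _ z _
    rw [NNReal.coe_one, one_mul]
    by_cases hj : j ∈ I
    · simp only [if_pos hj, dist_self]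
      exact dist_nonneg
    · simp only [if_neg hj]
      rw [Real.dist_eq]
      have h1 := hlip (φ z) (hφS z) (φ y) (hφS y) j
      rw [hφp y, hφp z] at h1
      refine h1.trans ?_
      have := (pr_lip I).dist_le_mul y z
      rwa [NNReal.coe_one, one_mul] at this
  · intro y _ j hj
    rw [Finset.mem_compl, not_not] at hj
    simp only [if_pos hj]
  · ext p
    constructor
    · intro hpS
      set y : Fin n → ℝ := fun j => if j ∈ I then p j else 0 with hy
      have hyc : y ∈ coordPlane n I := by
        intro j hj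
        simp only [hy, if_neg hj]
      have hpry : pr I p = pr I y := by
        funext i
        simp only [pr, hy, if_pos i.2]
      refine ⟨y, hyc, ?_⟩
      have h1 : ∀ j, |φ y j - p j| ≤ dist (pr I (φ y)) (pr I p) :=
        hlip p hpS (φ y) (hφS y)
      rw [hφp y, hpry, dist_self] at h1
      funext j
      simp only [Pi.add_apply, hy]
      by_cases hj : j ∈ I
      · simp only [if_pos hj, add_zero]
      · simp only [if_neg hj, zero_add]
        have := h1 j
        exact sub_eq_zero.mp (abs_eq_zero.mp (le_antisymm this (abs_nonneg _)))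
    · rintro ⟨y, hyc, rfl⟩
      have h1 : (fun j => y j + (if j ∈ I then 0 else φ y j)) = φ y := by
        funext j
        by_cases hj : j ∈ I
        · simp only [if_pos hj, add_zero]
          exact (hφp' y j hj).symm
        · simp only [if_neg hj]
          rw [hyc j hj, zero_add]
      have h2 : (fun y : Fin n → ℝ => y + fun j => if j ∈ I then 0 else φ y j) y = φ y := h1
      rw [h2]
      exact hφS y

end Pool.Agent.Results.MP_928b88_gt.EntireGraph
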