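import Pool.Agent.Run7.h763.Shell

/-! # Minimizing sets in sup-norm spaces are graphs near strictly coordinate tangent planes -/

open MeasureTheory Measure Metric Set Filter Topology

namespace Pool.Agent.Results.MP_928b88_gt.TangentPlaneGraph

/-- `S` is `m`-rectifiable: almost all of it is covered by countably many Lipschitz images of
subsets of `ℝ^m`. -/
def IsRectifiable (n m : ℕ) (S : Set (Fin n → ℝ)) : Prop :=
  ∃ (A : ℕ → Set (Fin m → ℝ)) (K : ℕ → NNReal) (f : ℕ → (Fin m → ℝ) → (Fin n → ℝ)),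
    (∀ k, LipschitzOnWith (K k) (f k) (A k)) ∧ μH[(m : ℝ)] (S \ ⋃ k, f k '' A k) = 0

/-- `S` is minimizing, as the problem defines it. -/
def IsMinimizing (n m : ℕ) (S : Set (Fin n → ℝ)) : Prop :=
  IsClosed S ∧ IsRectifiable n m S ∧
    ∀ (c : Fin n → ℝ) (r : ℝ), 0 < r → ∀ f : (Fin n → ℝ) → (Fin n → ℝ),
      (∃ K, LipschitzWith K f) → (∀ x, x ∉ closedBall c r → f x = x) →
      MapsTo f (closedBall c r) (closedBall c r) →
      μH[(m : ℝ)] (closedBall c r ∩ S) ≤ μH[(m : ℝ)] (f '' (closedBall c r ∩ S))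

/-- `T` is an approximate tangent plane of `S` at `x`: the complement of every cone around
`x + T` meets `S` in a set of `m`-dimensional density `0` at `x`. -/
def IsApproxTangent (n m : ℕ) (S : Set (Fin n → ℝ)) (x : Fin n → ℝ)
    (T : Submodule ℝ (Fin n → ℝ)) : Prop :=
  ∀ s : ℝ, 0 < s → s < 1 → Tendsto (fun r : ℝ =>
    μH[(m : ℝ)] (S ∩ closedBall x r ∩
      {y | s * dist y x ≤ infDist (y - x) (T : Set (Fin n → ℝ))}) / ENNReal.ofReal (r ^ m))
    (𝓝[>] 0) (𝓝 0)

/-- On every line of `T` some coordinate in `I` strictly dominates all coordinates outside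
`I`. -/
def StrictlyCoordinate (n : ℕ) (T : Submodule ℝ (Fin n → ℝ)) (I : Finset (Fin n)) : Prop :=
  ∀ v ∈ T, v ≠ 0 → ∃ i ∈ I, ∀ j, j ∉ I → |v j| < |v i|

/-- The coordinate plane of `I`. -/
def coordPlane (n : ℕ) (I : Finset (Fin n)) : Submodule ℝ (Fin n → ℝ) where
  carrier := {v | ∀ j, j ∉ I → v j = 0}
  add_mem' := by
    intro a b ha hb j hj
    rw [Pi.add_apply, ha j hj, hb j hj, add_zero]
  zero_mem' := fun j _ => rfl
  smul_mem' := by
    intro c a ha j hj
    rw [Pi.smul_apply, ha j hj, smul_zero]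

/-- The open cube of radius `ρ` in the coordinate plane of `I`, centred at the projection of
`x`. -/
def openCell (n : ℕ) (I : Finset (Fin n)) (x : Fin n → ℝ) (ρ : ℝ) : Set (Fin n → ℝ) :=
  {y | y ∈ coordPlane n I ∧ ∀ i ∈ I, |y i - x i| < ρ}

/-- `G` is the graph of a `1`-Lipschitz map `g : D → W`, where `D` lies in the coordinate plane
of `I` and `W` is the complementary coordinate plane. -/
def IsOneLipGraph (n : ℕ) (I : Finset (Fin n)) (D G : Set (Fin n → ℝ)) : Prop :=
  D ⊆ coordPlane n I ∧ ∃ g : (Fin n → ℝ) → (Fin n → ℝ), LipschitzOnWith 1 g D ∧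
    (∀ y ∈ D, g y ∈ coordPlane n Iᶜ) ∧ G = (fun y => y + g y) '' D

open Run7.h763 in
/-- Let `S` be minimizing with locally finite measure and let `S'` be the support of `H^m` on
`S`. Then `S'` is a closed subset of `S` of full measure and, near every point of `S'` with a
strictly coordinate approximate tangent plane, `S'` is the graph of a `1`-Lipschitz map over an
open cube of that coordinate plane. -/
theorem result (n m : ℕ) (hm : 1 ≤ m) (S : Set (Fin n → ℝ)) (hS : IsMinimizing n m S)
    (hfin : ∀ (c : Fin n → ℝ) (r : ℝ), μH[(m : ℝ)] (closedBall c r ∩ S) < ⊤) :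
    IsClosed (μH[(m : ℝ)].restrict S).support ∧
    (μH[(m : ℝ)].restrict S).support ⊆ S ∧
    μH[(m : ℝ)] (S \ (μH[(m : ℝ)].restrict S).support) = 0 ∧
    ∀ x ∈ (μH[(m : ℝ)].restrict S).support, ∀ T : Submodule ℝ (Fin n → ℝ),
      IsApproxTangent n m S x T → ∀ I : Finset (Fin n), I.card = m →
      StrictlyCoordinate n T I →
      ∃ U ∈ 𝓝 x, ∃ ρ : ℝ, 0 < ρ ∧
        IsOneLipGraph n I (openCell n I x ρ) ((μH[(m : ℝ)].restrict S).support ∩ U) := by
  obtain ⟨hcl, _, hmin⟩ := hS
  obtain ⟨hG, hsub, hnull⟩ := good_support (m := m) hcl hfin hmin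
  refine ⟨hG.closed, hsub, hnull, ?_⟩
  intro x hx T hT I hI hTI
  set S' := (μH[(m : ℝ)].restrict S).support with hS'
  have hT' : ApproxTan m S' x T := by
    intro s hs0 hs1
    refine tendsto_of_tendsto_of_tendsto_of_le_of_le tendsto_const_nhds (hT s hs0 hs1)
      (fun _ => zero_le) (fun r => ?_)
    apply ENNReal.div_le_div_right
    apply measure_mono
    intro y hy
    exact ⟨⟨hsub hy.1.1, hy.1.2⟩, hy.2⟩
  obtain ⟨r, hr, s, hs, hsurj, hlip⟩ := localGraph hG hm hI hx hT' hTI
  have hmemball : ∀ y : Fin n → ℝ, (∀ i ∈ I, |y i - x i| < s) → pr I y ∈ ball (pr I x) s := by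
    intro y hy
    rw [mem_ball, dist_pi_lt_iff hs]
    intro i
    rw [Real.dist_eq]
    exact hy i.1 i.2
  -- the graph map
  have hex : ∀ y : Fin n → ℝ, y ∈ openCell n I x s →
      ∃ z ∈ S', dist z x < r ∧ pr I z = pr I y := fun y hy =>
    hsurj (pr I y) (hmemball y hy.2)
  choose! φ hφS hφr hφp using hex
  have hφp' : ∀ y ∈ openCell n I x s, ∀ i ∈ I, φ y i = y i := by
    intro y hy i hi
    exact congrFun (hφp y hy) ⟨i, hi⟩
  refine ⟨{y | dist y x < r ∧ ∀ i ∈ I, |y i - x i| < s}, ?_, s, hs, fun y hy => hy.1,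
    fun y j => if j ∈ I then 0 else φ y j, ?_, ?_, ?_⟩
  · have h1 : {y : Fin n → ℝ | dist y x < r ∧ ∀ i ∈ I, |y i - x i| < s} ⊇
        ball x (min r s) := by
      intro y hy
      rw [mem_ball, lt_min_iff] at hy
      refine ⟨hy.1, fun i _ => ?_⟩
      have := dist_le_pi_dist y x i
      rw [Real.dist_eq] at this
      linarith [hy.2]
    exact mem_of_superset (ball_mem_nhds x (lt_min hr hs)) h1
  · apply lipOn_pi
    intro j
    rw [lipschitzOnWith_iff_dist_le_mul]
    intro y hy z hz
    rw [NNReal.coe_one, one_mul]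
    by_cases hj : j ∈ I
    · simp only [if_pos hj, dist_self]
      exact dist_nonneg
    · simp only [if_neg hj]
      rw [Real.dist_eq]
      have h1 := hlip (φ z) ⟨mem_closedBall.mpr (hφr z hz).le, hφS z hz⟩ (φ y)
        ⟨mem_closedBall.mpr (hφr y hy).le, hφS y hy⟩ (by rw [hφp z hz]; exact hmemball z hz.2)
        (by rw [hφp y hy]; exact hmemball y hy.2) j
      rw [hφp y hy, hφp z hz] at h1
      refine h1.trans ?_
      have := (pr_lip I).dist_le_mul y z
      rwa [NNReal.coe_one, one_mul] at this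
  · intro y hy j hj
    rw [Finset.mem_compl, not_not] at hj
    simp only [if_pos hj]
  · ext p
    constructor
    · rintro ⟨hpS, hpr, hps⟩
      set y : Fin n → ℝ := fun j => if j ∈ I then p j else 0 with hy
      have hyc : y ∈ openCell n I x s := by
        refine ⟨fun j hj => ?_, fun i hi => ?_⟩
        · simp only [hy, if_neg hj]
        · simp only [hy, if_pos hi]
          exact hps i hi
      have hpry : pr I p = pr I y := by
        funext i
        simp only [pr, hy, if_pos i.2]
      refine ⟨y, hyc, ?_⟩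
      have h1 : ∀ j, |φ y j - p j| ≤ dist (pr I (φ y)) (pr I p) :=
        hlip p ⟨mem_closedBall.mpr hpr.le, hpS⟩ (φ y)
          ⟨mem_closedBall.mpr (hφr y hyc).le, hφS y hyc⟩ (hmemball p hps)
          (by rw [hφp y hyc]; exact hmemball y hyc.2)
      rw [hφp y hyc, hpry, dist_self] at h1
      funext j
      simp only [Pi.add_apply, hy]
      by_cases hj : j ∈ I
      · simp only [if_pos hj, add_zero]
      · simp only [if_neg hj, zero_add]
        have := h1 j
        exact sub_eq_zero.mp (abs_eq_zero.mp (le_antisymm this (abs_nonneg _)))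
    · rintro ⟨y, hyc, rfl⟩
      have h1 : (fun j => y j + (if j ∈ I then 0 else φ y j)) = φ y := by
        funext j
        by_cases hj : j ∈ I
        · simp only [if_pos hj, add_zero]
          exact (hφp' y hyc j hj).symm
        · simp only [if_neg hj]
          rw [hyc.1 j hj, zero_add]
      have h2 : (fun y : Fin n → ℝ => y + fun j => if j ∈ I then 0 else φ y j) y = φ y := h1
      rw [h2]
      refine ⟨hφS y hyc, hφr y hyc, fun i hi => ?_⟩
      rw [hφp' y hyc i hi]
      exact hyc.2 i hi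

end Pool.Agent.Results.MP_928b88_gt.TangentPlaneGraph
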